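import Pool.Agent.H13.RookT

namespace Pool.Agent.Results.MP_a338c1_co.Bounds
open Pool.Agent.H13.RookT

theorem result :
    (∀ n : ℕ, 30 ≤ n ∨ (20 ≤ n ∧ Even n) → gam n < n / 2) ∧
    (∀ n : ℕ, 3 * n ≤ 7 * gam n ∧ 24 * gam n ≤ 11 * n + 33) := by
  refine ⟨fun n hn => ?_, fun n => ⟨lower n, upper n⟩⟩
  have a := g20
  have b := g31
  obtain ⟨q, rfl | rfl⟩ := Nat.even_or_odd' n
  · have := gamr 20 (q - 10)
    rw [show 20 + 2 * (q - 10) = 2 * q by omega] at this
    omega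
  · have hq : 15 ≤ q := by
      rcases hn with h | ⟨-, h⟩
      · omega
      · rw [Nat.even_iff] at h; omega
    have := gamr 31 (q - 15)
    rw [show 31 + 2 * (q - 15) = 2 * q + 1 by omega] at this
    omega

end Pool.Agent.Results.MP_a338c1_co.Bounds
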